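import Pool.Agent.Helper49.KM.Sparse

/-!
# Polynomial space, polynomial time and kernels with polynomial margin

A language is `Separable` if, for each length, a linear functional separates the language from its
complement with polynomial margin in the feature space of a kernel that can be approximated in
polynomial time; the functional itself need not be computable.

Polynomial space is contained in polynomial time if and only if all languages in polynomial space
are separable, and if and only if some language that is hard for polynomial space is separable.

Special case: the theorem `separable_of_threshold` shows that every language with a threshold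
reduction of polynomial weight and bounded width to a sparse set is separable.
-/

set_option autoImplicit false

namespace Pool.Agent.Helper49.Old.LargeMarginKernels

open Pool.Agent.NPC
open Pool.Agent.H623R2.PS (InPSPACE PSPACEHard)
open Pool.Agent.Helper49.KM

theorem result : List.TFAE [
    ∀ L : Set (List Bool), InPSPACE L → InP L,
    ∀ L : Set (List Bool), InPSPACE L → Separable L,
    ∃ A : Set (List Bool), PSPACEHard A ∧ Separable A] := by
  tfae_have 1 → 2 := fun h L hL => separable_of_inP (h L hL)
  tfae_have 2 → 1 := by
    intro h L hL
    obtain ⟨κ, q, h1⟩ := cumSep_of_separable (h LK inPSPACE_LK)
    exact collapse_of_cumSep h1 hL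
  tfae_have 3 → 1 := by
    rintro ⟨A, hA, h⟩
    exact collapse_of_hard hA h
  tfae_have 1 → 3 := by
    intro h
    refine ⟨{[true]}, fun L hL => h L hL, separable_of_inP ⟨fun x => x, PIso.poly_iff.1
      NPC.Poly.id, fun x => Iff.rfl⟩⟩
  tfae_finish

end Pool.Agent.Helper49.Old.LargeMarginKernels
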